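import Pool.Agent.Helper133.Brouwer

set_option autoImplicit false

namespace Pool.Agent.H571Z.Geo

open Finset

/-- piecewise linear interpolation -/
noncomputable def interp (γ : ℕ → Fin 3 → ℝ) (n : ℕ) (u : ℝ) : Fin 3 → ℝ :=
  ∑ σ ∈ range n, max 0 (min 1 (u - σ)) • (γ (σ + 1) - γ σ)

lemma interp_cont (γ : ℕ → Fin 3 → ℝ) (n : ℕ) : Continuous (interp γ n) := by
  unfold interp
  fun_prop

lemma interp_ge (γ : ℕ → Fin 3 → ℝ) (h0 : γ 0 = 0) (n : ℕ) {u : ℝ} (hu : (n : ℝ) ≤ u) :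
    interp γ n u = γ n := by
  unfold interp
  have : ∀ σ ∈ range n, max 0 (min 1 (u - σ)) • (γ (σ + 1) - γ σ) = γ (σ + 1) - γ σ := by
    intro σ hσ
    have h1 : (σ : ℝ) + 1 ≤ n := by exact_mod_cast mem_range.1 hσ
    rw [min_eq_left (by linarith), max_eq_right zero_le_one, one_smul]
  rw [sum_congr rfl this, sum_range_sub, h0, sub_zero]

lemma interp_mem (γ : ℕ → Fin 3 → ℝ) (h0 : γ 0 = 0) (n : ℕ)
    (hs : ∀ τ, τ < n → ‖γ (τ + 1) - γ τ‖ ≤ 1) {u : ℝ} (_hu0 : 0 ≤ u) (hu : u ≤ n) :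
    ∃ σ σ' : ℕ, ∃ l : ℝ, σ ≤ n ∧ σ' ≤ n ∧ 0 ≤ l ∧ l ≤ 1 ∧ ‖γ σ' - γ σ‖ ≤ 1 ∧
      interp γ n u = γ σ + l • (γ σ' - γ σ) := by
  induction n with
  | zero => exact ⟨0, 0, 0, le_rfl, le_rfl, le_rfl, zero_le_one, by simp, by simp [interp, h0]⟩
  | succ n ih =>
    have e : interp γ (n + 1) u = interp γ n u + max 0 (min 1 (u - n)) • (γ (n + 1) - γ n) := by
      simp [interp, sum_range_succ]
    rcases le_total u n with h | h
    · obtain ⟨σ, σ', l, a1, a2, a3, a4, a5, a6⟩ := ih (fun τ hτ => hs τ (by omega)) h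
      refine ⟨σ, σ', l, by omega, by omega, a3, a4, a5, ?_⟩
      rw [e, max_eq_left ((min_le_right _ _).trans (by linarith)), zero_smul, add_zero, a6]
    · push_cast at hu
      refine ⟨n, n + 1, u - n, by omega, le_rfl, by linarith, by linarith, hs n (by omega), ?_⟩
      rw [e, interp_ge γ h0 n h, min_eq_right (by linarith), max_eq_right (by linarith)]

theorem bss (γ : ℕ → Fin 3 → ℝ) (h0 : γ 0 = 0) (L : ℕ)
    (hs : ∀ τ, τ < L → ‖γ (τ + 1) - γ τ‖ ≤ 1) {ι : Type} [Fintype ι] (hι : Fintype.card ι ≤ 5)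
    (θ : ι → ℝ) (hθ : ∀ i, |θ i| ≤ 1) (τ : ι → ℕ) (hτ : ∀ i, τ i ≤ L) :
    ∃ (k : Fin 3 → ℤ) (t s : Fin 3 → ℕ), (∀ i, |k i| ≤ 12 ∧ t i ≤ L ∧ s i ≤ L) ∧
      ‖∑ i, θ i • γ (τ i) - ∑ i, ((k i : ℝ) • γ (t i) + γ (s i))‖ ≤ 39 := by
  classical
  let p : Fin (L + 1) ⊕ Fin 3 → Fin 3 → ℝ := Sum.elim (fun a => γ a) fun k => Pi.single k 1
  let M : (Fin 3 → Fin (L + 1) ⊕ Fin 3) → Matrix (Fin 3) (Fin 3) ℝ :=
    fun c => Matrix.of fun r i => p (c i) r
  obtain ⟨c, hc⟩ := Finite.exists_max fun c => |(M c).det|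
  have hd1 : 1 ≤ |(M c).det| := by
    have := hc Sum.inr
    have e : M Sum.inr = 1 := by
      ext r i
      simp [M, p, Matrix.one_apply, Pi.single_apply]
    rw [e] at this
    simpa using this
  have hd0 : (M c).det ≠ 0 := by
    intro h; rw [h] at hd1; norm_num at hd1
  let κ : (Fin 3 → ℝ) →ₗ[ℝ] (Fin 3 → ℝ) := ((M c).det)⁻¹ • Matrix.cramer (M c)
  have hκ : ∀ v, (M c).mulVec (κ v) = v := by
    intro v
    simp only [κ, LinearMap.smul_apply, Matrix.mulVec_smul, Matrix.mulVec_cramer, smul_smul]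
    rw [inv_mul_cancel₀ hd0, one_smul]
  have hκp : ∀ a, ‖κ (p a)‖ ≤ 1 := by
    intro a
    refine (pi_norm_le_iff_of_nonneg zero_le_one).2 fun i => ?_
    have e : (M c).updateCol i (p a) = M (Function.update c i a) := by
      ext r j
      by_cases h : j = i
      · subst h; simp [M]
      · simp [M, Matrix.updateCol_ne h, Function.update_of_ne h]
    simp only [κ, LinearMap.smul_apply, Pi.smul_apply, Matrix.cramer_apply, e, smul_eq_mul,
      norm_mul, norm_inv, Real.norm_eq_abs]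
    rw [inv_mul_le_iff₀ (by linarith), mul_one]
    exact hc _
  have hκγ : ∀ σ, σ ≤ L → ‖κ (γ σ)‖ ≤ 1 := fun σ hσ => hκp (Sum.inl ⟨σ, by omega⟩)
  -- paths
  have path : ∀ a, ∃ g : ℝ → Fin 3 → ℝ, Continuous g ∧ g 0 = 0 ∧ g 1 = p a ∧
      ∀ u, 0 ≤ u → u ≤ 1 → ‖κ (g u)‖ ≤ 1 ∧ ∃ σ, σ ≤ L ∧ ‖g u - γ σ‖ ≤ 1 := by
    rintro (a | k)
    · refine ⟨fun u => interp γ a (a * u), (interp_cont γ a).comp (by fun_prop), ?_, ?_,
        fun u u0 u1 => ?_⟩
      · simp only [mul_zero, interp]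
        refine sum_eq_zero fun σ _ => ?_
        rw [max_eq_left ((min_le_right _ _).trans (by simp)), zero_smul]
      · simp only [mul_one]
        exact interp_ge γ h0 a le_rfl
      · have ha : (a : ℕ) ≤ L := by omega
        obtain ⟨σ, σ', l, a1, a2, a3, a4, a5, a6⟩ := interp_mem γ h0 a
          (fun τ hτ => hs τ (by omega)) (u := a * u) (by positivity)
          (mul_le_of_le_one_right (by positivity) u1)
        simp only [a6]
        refine ⟨?_, σ, by omega, ?_⟩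
        · have e : κ (γ σ + l • (γ σ' - γ σ)) = (1 - l) • κ (γ σ) + l • κ (γ σ') := by
            rw [map_add, map_smul, map_sub]; module
          rw [e]
          refine (norm_add_le _ _).trans ?_
          rw [norm_smul, norm_smul, Real.norm_of_nonneg a3, Real.norm_of_nonneg (by linarith)]
          nlinarith [hκγ σ (by omega), hκγ σ' (by omega)]
        · rw [add_sub_cancel_left, norm_smul, Real.norm_of_nonneg a3]
          nlinarith [norm_nonneg (γ σ' - γ σ)]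
    · refine ⟨fun u => u • p (Sum.inr k), by fun_prop, by simp, by simp, fun u u0 u1 => ⟨?_, 0,
        Nat.zero_le _, ?_⟩⟩
      · rw [map_smul, norm_smul, Real.norm_of_nonneg u0]
        nlinarith [hκp (Sum.inr k), norm_nonneg (κ (p (Sum.inr k)))]
      · rw [h0, sub_zero, norm_smul, Real.norm_of_nonneg u0]
        simp [p, Pi.norm_single, u1]
  choose g gc g0 g1 gb using path
  set y := ∑ i, θ i • γ (τ i) with hy
  have hκy : ‖κ y‖ ≤ 5 := by
    rw [hy, map_sum]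
    refine (norm_sum_le _ _).trans ?_
    have : ∀ i ∈ (univ : Finset ι), ‖κ (θ i • γ (τ i))‖ ≤ 1 := by
      intro i _
      rw [map_smul, norm_smul, Real.norm_eq_abs]
      nlinarith [hθ i, hκγ _ (hτ i), abs_nonneg (θ i), norm_nonneg (κ (γ (τ i)))]
    refine (sum_le_card_nsmul _ _ _ this).trans ?_
    simp only [card_univ, nsmul_eq_mul, mul_one]
    exact_mod_cast hι
  let h : Fin 3 → ℝ → Fin 3 → ℝ := fun i u => g (c i) u - u • p (c i)
  have hc' : ∀ i, Continuous fun u => h i (Int.fract u) := by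
    intro i
    have : Continuous (h i) := (gc _).sub (by fun_prop)
    exact ContinuousOn.comp_fract'' this.continuousOn (by simp [h, g0, g1])
  have hb : ∀ i u, ‖κ (h i (Int.fract u))‖ ≤ 2 := by
    intro i u
    simp only [h, map_sub, map_smul]
    refine (norm_sub_le _ _).trans ?_
    rw [norm_smul, Real.norm_of_nonneg (Int.fract_nonneg u)]
    nlinarith [(gb (c i) _ (Int.fract_nonneg u) (Int.fract_lt_one u).le).1, hκp (c i),
      Int.fract_nonneg u, Int.fract_lt_one u, norm_nonneg (κ (p (c i)))]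
  have cκ : Continuous κ := LinearMap.continuous_of_finiteDimensional κ
  have hR : ∀ x : Fin 3 → ℝ, ‖κ y - ∑ i, κ (h i (Int.fract (x i)))‖ ≤ 11 := by
    intro x
    refine (norm_sub_le _ _).trans ?_
    have := norm_sum_le univ fun i => κ (h i (Int.fract (x i)))
    rw [Fin.sum_univ_three (fun i => ‖κ (h i (Int.fract (x i)))‖)] at this
    linarith [hb 0 (x 0), hb 1 (x 1), hb 2 (x 2)]
  obtain ⟨x, hx⟩ := Pool.Agent.Helper133.Brouwer.brouwer
    (fun x : Fin 3 → ℝ => κ y - ∑ i, κ (h i (Int.fract (x i))))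
    (continuous_const.sub (continuous_finsetSum _ fun i _ =>
      cκ.comp ((hc' i).comp (continuous_apply i)))) 11 hR
  have hxn : ∀ i, |x i| ≤ 11 := by
    intro i
    have := hR x
    rw [hx] at this
    exact (norm_le_pi_norm x i).trans this
  have key : y = ∑ i, ((⌊x i⌋ : ℝ) • p (c i) + g (c i) (Int.fract (x i))) := by
    have e1 : (M c).mulVec x = ∑ i, x i • p (c i) := by
      ext r
      simp [M, Matrix.mulVec, dotProduct, mul_comm]
    have e2 : (M c).mulVec x = y - ∑ i, h i (Int.fract (x i)) := by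
      conv_lhs => rw [← hx]
      rw [← map_sum, ← map_sub, hκ]
    rw [e1, eq_sub_iff_add_eq, ← sum_add_distrib] at e2
    rw [← e2]
    refine sum_congr rfl fun i _ => ?_
    simp only [h]
    conv_lhs => rw [← Int.floor_add_fract (x i)]
    rw [Int.floor_add_fract, Int.fract]
    module
  have fl : ∀ i, |⌊x i⌋| ≤ 12 := by
    intro i
    have := abs_le.1 (hxn i)
    have h1 : (-12 : ℤ) ≤ ⌊x i⌋ := Int.le_floor.2 (by push_cast; linarith [this.1])
    have h2 : ⌊x i⌋ ≤ 12 := by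
      have : ⌊x i⌋ < 13 := Int.floor_lt.2 (by push_cast; linarith [this.2])
      omega
    exact abs_le.2 ⟨h1, h2⟩
  have each : ∀ i, ∃ t s : ℕ, t ≤ L ∧ s ≤ L ∧
      ‖((⌊x i⌋ : ℝ) • p (c i) + g (c i) (Int.fract (x i))) - ((⌊x i⌋ : ℝ) • γ t + γ s)‖ ≤ 13 := by
    intro i
    obtain ⟨s, hs1, hs2⟩ := (gb (c i) _ (Int.fract_nonneg (x i)) (Int.fract_lt_one _).le).2
    have : ∃ t, t ≤ L ∧ ‖p (c i) - γ t‖ ≤ 1 := by
      rcases c i with a | k
      · exact ⟨a, by omega, by simp [p]⟩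
      · exact ⟨0, Nat.zero_le _, by simp [p, h0, Pi.norm_single]⟩
    obtain ⟨t, ht1, ht2⟩ := this
    refine ⟨t, s, ht1, hs1, ?_⟩
    have e : ((⌊x i⌋ : ℝ) • p (c i) + g (c i) (Int.fract (x i))) - ((⌊x i⌋ : ℝ) • γ t + γ s) =
        (⌊x i⌋ : ℝ) • (p (c i) - γ t) + (g (c i) (Int.fract (x i)) - γ s) := by module
    rw [e]
    refine (norm_add_le _ _).trans ?_
    rw [norm_smul, Real.norm_eq_abs]
    have : |(⌊x i⌋ : ℝ)| ≤ 12 := by exact_mod_cast fl i
    nlinarith [abs_nonneg (⌊x i⌋ : ℝ), norm_nonneg (p (c i) - γ t)]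
  choose t s ht hs' he using each
  refine ⟨fun i => ⌊x i⌋, t, s, fun i => ⟨fl i, ht i, hs' i⟩, ?_⟩
  rw [key, ← sum_sub_distrib]
  refine (norm_sum_le _ _).trans ?_
  rw [Fin.sum_univ_three]
  linarith [he 0, he 1, he 2]

/-- Carathéodory with integer rounding. -/
theorem cara (φ : ℕ → Fin 4 → ℝ) (L : ℕ) (n : ℕ → ℤ) :
    ∃ (ι : Type) (_ : Fintype ι) (τ : ι → ℕ) (m : ι → ℤ) (θ : ι → ℝ), Fintype.card ι ≤ 5 ∧
      (∀ i, τ i ≤ L ∧ |θ i| ≤ 1) ∧ ∑ i, |m i| ≤ ∑ σ ∈ range (L + 1), |n σ| ∧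
      ∑ σ ∈ range (L + 1), (n σ : ℝ) • φ σ = ∑ i, (m i : ℝ) • φ (τ i) + ∑ i, θ i • φ (τ i) := by
  classical
  set T : ℤ := ∑ σ ∈ range (L + 1), |n σ| with hT
  have hT0 : 0 ≤ T := sum_nonneg fun σ _ => abs_nonneg _
  rcases hT0.eq_or_lt with h | h
  · refine ⟨Empty, inferInstance, Empty.elim, Empty.elim, Empty.elim, by simp, fun i => i.elim,
      by simpa using hT0, ?_⟩
    have : ∀ σ ∈ range (L + 1), |n σ| = 0 :=
      (sum_eq_zero_iff_of_nonneg fun σ _ => abs_nonneg _).1 h.symm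
    simp only [univ_eq_empty, sum_empty, add_zero]
    refine sum_eq_zero fun σ hσ => ?_
    rw [abs_eq_zero.1 (this σ hσ)]
    simp
  have hTr : (0:ℝ) < T := by exact_mod_cast h
  let S : Set (Fin 4 → ℝ) := {v | ∃ σ, σ ≤ L ∧ ∃ e : ℤ, |e| = 1 ∧ v = (e : ℝ) • φ σ}
  have hmem : (T : ℝ)⁻¹ • ∑ σ ∈ range (L + 1), (n σ : ℝ) • φ σ ∈ convexHull ℝ S := by
    have := (convex_convexHull ℝ S).sum_mem (t := range (L + 1))
      (w := fun σ => (T : ℝ)⁻¹ * |(n σ : ℝ)|)
      (z := fun σ => ((if 0 ≤ n σ then 1 else -1 : ℤ) : ℝ) • φ σ) (fun σ _ => by positivity)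
      (by
        rw [← mul_sum]
        have : ∑ σ ∈ range (L + 1), |(n σ : ℝ)| = T := by rw [hT]; push_cast; rfl
        rw [this, inv_mul_cancel₀ hTr.ne'])
      (fun σ hσ => subset_convexHull ℝ S ⟨σ, by have := mem_range.1 hσ; omega, _,
        by split_ifs <;> simp, rfl⟩)
    convert this using 1
    rw [smul_sum]
    refine sum_congr rfl fun σ _ => ?_
    rw [smul_smul, smul_smul]
    congr 1
    split_ifs with hn
    · have : (0:ℝ) ≤ n σ := by exact_mod_cast hn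
      rw [abs_of_nonneg this]; simp
    · have : (n σ : ℝ) < 0 := by exact_mod_cast not_le.1 hn
      rw [abs_of_neg this]; simp
  obtain ⟨ι, _, z, w, hz, hai, hw, hw1, hwz⟩ := eq_pos_convex_span_of_mem_convexHull hmem
  have hcard : Fintype.card ι ≤ 5 := by
    have h1 := hai.card_le_finrank_succ
    have h2 := Submodule.finrank_le (vectorSpan ℝ (Set.range z))
    simp only [Module.finrank_fin_fun] at h2
    omega
  choose τ hτ e he hz' using fun i => hz (Set.mem_range_self i)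
  refine ⟨ι, inferInstance, τ, fun i => ⌊T * w i⌋ * e i, fun i => Int.fract (T * w i) * e i, hcard,
    fun i => ⟨hτ i, ?_⟩, ?_, ?_⟩
  · have : |(e i : ℝ)| = 1 := by exact_mod_cast he i
    rw [abs_mul, this, mul_one, abs_of_nonneg (Int.fract_nonneg _)]
    exact (Int.fract_lt_one _).le
  · have : ((∑ i, |⌊T * w i⌋ * e i| : ℤ) : ℝ) ≤ T := by
      push_cast
      calc _ ≤ ∑ i, (T : ℝ) * w i := sum_le_sum fun i _ => by
            have h1 : |(e i : ℝ)| = 1 := by exact_mod_cast he i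
            have h2 : (0:ℝ) ≤ ⌊T * w i⌋ := by
              exact_mod_cast Int.floor_nonneg.2 (mul_nonneg hTr.le (hw i).le)
            rw [abs_mul, h1, mul_one, abs_of_nonneg h2]
            exact Int.floor_le _
        _ = T := by rw [← mul_sum, hw1, mul_one]
    exact_mod_cast this
  · have := congrArg (fun v => (T : ℝ) • v) hwz
    simp only [smul_smul, mul_inv_cancel₀ hTr.ne', one_smul] at this
    rw [← this, smul_sum, ← sum_add_distrib]
    refine sum_congr rfl fun i _ => ?_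
    rw [hz' i, smul_smul, smul_smul, ← add_smul]
    congr 1
    push_cast
    rw [← add_mul, Int.floor_add_fract]

end Pool.Agent.H571Z.Geo
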