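import Pool.Agent.H571Z.Geo.Step

set_option autoImplicit false

namespace Pool.Agent.H571Z.Geo

open Finset
open scoped commutatorElement

def uu (b : Bool) : G := ⟨U 0 (sg b), 0⟩
def tt (s : Fin 4) : G := ⟨1, s⟩

open Classical in
noncomputable def SS : Finset G := {uu true, uu false, tt 1, tt 2, tt 3}

lemma mem_SS {x : G} : x ∈ SS ↔ (∃ b, x = uu b) ∨ ∃ s, s ≠ 0 ∧ x = tt s := by
  simp only [SS, mem_insert, mem_singleton]
  constructor
  · rintro (h | h | h | h | h)
    exacts [Or.inl ⟨_, h⟩, Or.inl ⟨_, h⟩, Or.inr ⟨_, by decide, h⟩, Or.inr ⟨_, by decide, h⟩,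
      Or.inr ⟨_, by decide, h⟩]
  · rintro (⟨b, h⟩ | ⟨s, hs, h⟩)
    · cases b <;> simp [h]
    · fin_cases s <;> simp_all

lemma tt_mul (s r : Fin 4) : tt s * tt r = tt (s + r) :=
  G.ext (by simp [tt, sh_one]) rfl

lemma tt_zero : tt 0 = 1 := rfl

lemma tt_uu (s : Fin 4) (b : Bool) : tt s * uu b = inl (gen (s, b)) * tt s :=
  G.ext (by simp [tt, uu, sh_U, gen, sh_one]) (by simp [tt, uu])

lemma uu_mul (b : Bool) : uu b * uu (!b) = 1 :=
  G.ext (by cases b <;> simp [uu, sh_zero, sg, ← U_add, U_zero]) (by simp [uu])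

lemma inl_mul (a b : H) (s : Fin 4) : inl a * ⟨b, s⟩ = ⟨a * b, s⟩ :=
  G.ext (by simp [sh_zero]) (by simp)

def nT (w : List G) : ℕ := w.countP fun x => x.s ≠ 0

lemma nT_cons (a : G) (w : List G) : nT (a :: w) = nT w + if a.s = 0 then 0 else 1 := by
  by_cases ha : a.s = 0 <;> simp [nT, ha]

lemma toH (w : List G) (hw : ∀ x ∈ w, x ∈ SS) (s : Fin 4) :
    ∃ (v : List Le) (s' : Fin 4), tt s * w.prod = ⟨val v, s'⟩ ∧ v.length + nT w = w.length := by
  induction w generalizing s with
  | nil => exact ⟨[], s, by simp [tt], by simp [nT]⟩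
  | cons x w ih =>
    have ih' := ih fun y hy => hw y (List.mem_cons_of_mem _ hy)
    rcases mem_SS.1 (hw x List.mem_cons_self) with ⟨b, rfl⟩ | ⟨r, hr, rfl⟩
    · obtain ⟨v, s', h1, h2⟩ := ih' s
      refine ⟨(s, b) :: v, s', ?_, ?_⟩
      · rw [List.prod_cons, ← mul_assoc, tt_uu, mul_assoc, h1, inl_mul, val_cons]
      · simp only [nT_cons, uu, List.length_cons, if_true]
        omega
    · obtain ⟨v, s', h1, h2⟩ := ih' (s + r)
      refine ⟨v, s', ?_, ?_⟩
      · rw [List.prod_cons, ← mul_assoc, tt_mul, h1]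
      · simp only [nT_cons, tt, List.length_cons, hr, if_false]
        omega

lemma move (s s' : Fin 4) : ∃ w : List G, (∀ x ∈ w, x ∈ SS) ∧ tt s * w.prod = tt s' ∧
    w.length ≤ if s = s' then 0 else 1 := by
  by_cases h : s = s'
  · exact ⟨[], by simp, by simp [h], by simp⟩
  · refine ⟨[tt (s' - s)], ?_, by simp [tt_mul], by simp [h]⟩
    intro x hx
    rw [List.mem_singleton.1 hx]
    exact mem_SS.2 (Or.inr ⟨_, sub_ne_zero.2 (Ne.symm h), rfl⟩)

lemma fromH (v : List Le) (s s' : Fin 4) : ∃ w : List G, (∀ x ∈ w, x ∈ SS) ∧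
    tt s * w.prod = ⟨val v, s'⟩ ∧ w.length ≤ v.length + sw s v + 1 := by
  induction v generalizing s with
  | nil =>
    obtain ⟨w, h1, h2, h3⟩ := move s s'
    exact ⟨w, h1, h2, by split_ifs at h3 <;> omega⟩
  | cons a v ih =>
    obtain ⟨w, h1, h2, h3⟩ := move s a.1
    obtain ⟨w', h1', h2', h3'⟩ := ih a.1
    refine ⟨w ++ uu a.2 :: w', ?_, ?_, ?_⟩
    · intro x hx
      rcases List.mem_append.1 hx with h | h
      · exact h1 x h
      · rcases List.mem_cons.1 h with h | h
        · exact mem_SS.2 (Or.inl ⟨_, h⟩)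
        · exact h1' x h
    · rw [List.prod_append, List.prod_cons, ← mul_assoc, h2, ← mul_assoc, tt_uu, mul_assoc, h2',
        inl_mul, val_cons]
    · simp only [List.length_append, List.length_cons, sw]
      omega

def Geod (w : List G) : Prop :=
  (∀ x ∈ w, x ∈ SS) ∧ ∀ v : List G, (∀ x ∈ v, x ∈ SS) → v.prod = w.prod → w.length ≤ v.length

lemma Geod.nT_le {w : List G} (h : Geod w) : nT w ≤ 4001 := by
  obtain ⟨v, s', h1, h2⟩ := toH w h.1 0
  obtain ⟨v', a1, a2, a3⟩ := bsp v
  obtain ⟨w', b1, b2, b3⟩ := fromH v' 0 s'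
  rw [tt_zero, one_mul] at h1 b2
  have := h.2 w' b1 (by rw [b2, h1, a1])
  have := a3 0
  omega

lemma Geod.tail {a : G} {w : List G} (h : Geod (a :: w)) : Geod w := by
  refine ⟨fun x hx => h.1 x (List.mem_cons_of_mem _ hx), fun v hv e => ?_⟩
  have := h.2 (a :: v) (fun x hx => by
    rcases List.mem_cons.1 hx with rfl | hx
    · exact h.1 _ List.mem_cons_self
    · exact hv x hx) (by simp [e])
  simpa using this

open Classical in
noncomputable def bl : List G → ℕ
  | [] => 0
  | [_] => 1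
  | a :: b :: w => (if a = b then 0 else 1) + bl (b :: w)

lemma Geod.bl_le {a : G} {w : List G} (h : Geod (a :: w)) :
    bl (a :: w) ≤ 2 * nT (a :: w) + if a.s = 0 then 1 else 0 := by
  induction w generalizing a with
  | nil => by_cases ha : a.s = 0 <;> simp [bl, nT, ha]
  | cons b w ih =>
    have := ih h.tail
    simp only [bl]
    rw [nT_cons a]
    by_cases ha : a.s = 0
    · by_cases hb : b.s = 0
      · have hab : a = b := by
          rcases mem_SS.1 (h.1 a List.mem_cons_self) with ⟨c, rfl⟩ | ⟨r, hr, rfl⟩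
          · rcases mem_SS.1 (h.1 b (by simp)) with ⟨d, rfl⟩ | ⟨r, hr, rfl⟩
            · by_contra hne
              have hd : d = !c := by cases c <;> cases d <;> simp_all
              subst hd
              have := h.2 w (fun x hx => h.1 x (by simp [hx]))
                (by rw [List.prod_cons, List.prod_cons, ← mul_assoc, uu_mul, one_mul])
              simp only [List.length_cons] at this
              omega
            · exact absurd hb hr
          · exact absurd ha hr
        simp only [hab, hb, if_true] at this ⊢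
        omega
      · simp only [ha, hb, if_true, if_false] at this ⊢
        split_ifs <;> omega
    · simp only [ha, if_false] at this ⊢
      split_ifs at this ⊢ <;> omega

open Classical in
noncomputable def FF (n : ℕ) : ℕ → Finset (List G)
  | 0 => {[]}
  | k + 1 => (SS ×ˢ range (n + 1) ×ˢ FF n k).image fun p => List.replicate p.2.1 p.1 ++ p.2.2

lemma card_FF (n k : ℕ) : (FF n k).card ≤ 5 ^ k * (n + 1) ^ k := by
  classical
  induction k with
  | zero => simp [FF]
  | succ k ih =>
    simp only [FF]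
    refine le_trans (by convert card_image_le) ?_
    rw [card_product, card_product, card_range]
    have : SS.card ≤ 5 := by
      unfold SS
      convert card_le_five
    calc _ ≤ 5 * ((n + 1) * (5 ^ k * (n + 1) ^ k)) := by gcongr
      _ = _ := by ring

lemma nil_mem_FF (n k : ℕ) : [] ∈ FF n k := by
  induction k with
  | zero => simp [FF]
  | succ k ih =>
    simp only [FF, mem_image]
    exact ⟨(uu true, 0, []), by simp [ih, mem_SS], by simp⟩

lemma split_FF (n : ℕ) (a : G) (w : List G) (hw : ∀ x ∈ a :: w, x ∈ SS) (hn : (a :: w).length ≤ n)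
    (k : ℕ) (hk : bl (a :: w) ≤ k + 1) :
    ∃ m w', m ≤ (a :: w).length ∧ w' ∈ FF n k ∧ a :: w = List.replicate m a ++ w' := by
  induction w generalizing a k with
  | nil => exact ⟨1, [], by simp, nil_mem_FF n k, by simp⟩
  | cons b w ih =>
    have hw' : ∀ x ∈ b :: w, x ∈ SS := fun x hx => hw x (List.mem_cons_of_mem _ hx)
    have hn' : (b :: w).length ≤ n := by simp only [List.length_cons] at hn ⊢; omega
    simp only [bl] at hk
    by_cases hab : a = b
    · subst hab
      obtain ⟨m, w', h1, h2, h3⟩ := ih a hw' hn' k (by simpa using hk)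
      exact ⟨m + 1, w', by simp only [List.length_cons] at h1 ⊢; omega, h2,
        by rw [List.replicate_succ, List.cons_append, ← h3]⟩
    · simp only [hab, if_false] at hk
      have hb : 1 ≤ bl (b :: w) := by
        clear ih hw hn hk hw' hn' hab
        induction w generalizing b with
        | nil => simp [bl]
        | cons c w ih => simp only [bl]; have := ih c; omega
      obtain ⟨k', rfl⟩ : ∃ k', k = k' + 1 := ⟨k - 1, by omega⟩
      obtain ⟨m, w', h1, h2, h3⟩ := ih b hw' hn' k' (by omega)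
      refine ⟨1, b :: w, by simp, ?_, by simp⟩
      simp only [FF, mem_image]
      refine ⟨(b, m, w'), ?_, h3.symm⟩
      simp only [mem_product, mem_range]
      exact ⟨hw' b List.mem_cons_self, by omega, h2⟩

lemma geod_mem (n : ℕ) (w : List G) (hn : w.length ≤ n) (h : Geod w) (k : ℕ) (hk : 8002 ≤ k) :
    w ∈ FF n (k + 1) := by
  cases w with
  | nil => exact nil_mem_FF _ _
  | cons a w =>
    have h1 := h.bl_le
    have h2 := h.nT_le
    obtain ⟨m, w', a1, a2, a3⟩ := split_FF n a w h.1 hn k (by split_ifs at h1 <;> omega)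
    simp only [FF, mem_image]
    refine ⟨(a, m, w'), ?_, a3.symm⟩
    simp only [mem_product, mem_range]
    exact ⟨h.1 a List.mem_cons_self, by omega, a2⟩

lemma SS_symm : ∀ s ∈ SS, s⁻¹ ∈ SS := by
  intro s hs
  rcases mem_SS.1 hs with ⟨b, rfl⟩ | ⟨r, hr, rfl⟩
  · exact mem_SS.2 (Or.inl ⟨!b, inv_eq_of_mul_eq_one_right (uu_mul b)⟩)
  · exact mem_SS.2 (Or.inr ⟨-r, neg_ne_zero.2 hr,
      inv_eq_of_mul_eq_one_right (by rw [tt_mul, add_neg_cancel, tt_zero])⟩)

lemma SS_gen : Subgroup.closure (SS : Set G) = ⊤ := by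
  set K := Subgroup.closure (SS : Set G) with hK
  have ht : ∀ s, tt s ∈ K := fun s => by
    by_cases h : s = 0
    · rw [h, tt_zero]; exact K.one_mem
    · exact Subgroup.subset_closure (mem_SS.2 (Or.inr ⟨s, h, rfl⟩))
  have hu : uu true ∈ K := Subgroup.subset_closure (mem_SS.2 (Or.inl ⟨_, rfl⟩))
  have := gen_H (K.comap inl) fun i => by
    have := K.mul_mem (K.mul_mem (ht i) hu) (K.inv_mem (ht i))
    rw [tt_uu, mul_inv_cancel_right] at this
    exact this
  rw [eq_top_iff]
  intro g _
  have h1 : g.h ∈ K.comap inl := this ▸ Subgroup.mem_top _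
  have h2 := K.mul_mem h1 (ht g.s)
  rw [tt, inl_mul, mul_one] at h2
  exact h2

lemma not_two_step (K : Subgroup G) (hK : K.FiniteIndex) : K.lowerCentralSeries 2 ≠ ⊥ := by
  intro h
  have hp : ∀ i, ∃ n : ℕ, 0 < n ∧ inl (U i n) ∈ K := fun i => by
    obtain ⟨n, h1, -, h2⟩ := K.exists_pow_mem_of_index_ne_zero hK.index_ne_zero (inl (U i 1))
    exact ⟨n, h1, by rwa [← map_pow, U_pow] at h2⟩
  obtain ⟨a, ha, ha'⟩ := hp 0
  obtain ⟨b, hb, hb'⟩ := hp 1
  obtain ⟨c, hc, hc'⟩ := hp 2
  have hm : ⁅⁅inl (U 0 a), inl (U 1 b)⁆, inl (U 2 c)⁆ ∈ K.lowerCentralSeries 2 :=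
    Subgroup.commutator_mem_commutator (Subgroup.commutator_mem_commutator ha' hb') hc'
  rw [h, Subgroup.mem_bot, ← map_commutatorElement, ← map_commutatorElement] at hm
  have h2 := congrArg (fun g : G => g.h.z) hm
  simp only [inl_h, comm3, gone_h, one_z] at h2
  have : (0:ℤ) < a * b * c := by positivity
  omega

end Pool.Agent.H571Z.Geo
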