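import Mathlib

set_option autoImplicit false

namespace Pool.Agent.H571Z.Geo

open scoped commutatorElement

@[ext] structure H where
  x : Fin 4 → ℤ
  f : Fin 4 → ℤ
  z : ℤ

instance : Mul H := ⟨fun a b => ⟨fun i => a.x i + b.x i, fun i => a.f i + b.f i + a.x i * b.x (i + 1),
  a.z + b.z + (a.x 0 * b.f 1 + a.x 1 * b.f 2 + a.x 2 * b.f 3 + a.x 3 * b.f 0) +
    (a.f 0 * b.x 2 + a.f 1 * b.x 3 + a.f 2 * b.x 0 + a.f 3 * b.x 1)⟩⟩

instance : One H := ⟨⟨0, 0, 0⟩⟩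

instance : Inv H := ⟨fun a => ⟨fun i => -a.x i, fun i => -a.f i + a.x i * a.x (i + 1),
  -a.z + (a.x 0 * a.f 1 + a.x 1 * a.f 2 + a.x 2 * a.f 3 + a.x 3 * a.f 0) +
    (a.f 0 * a.x 2 + a.f 1 * a.x 3 + a.f 2 * a.x 0 + a.f 3 * a.x 1) -
    (a.x 0 * a.x 1 * a.x 2 + a.x 1 * a.x 2 * a.x 3 + a.x 2 * a.x 3 * a.x 0 +
      a.x 3 * a.x 0 * a.x 1)⟩⟩

@[simp] lemma mul_x (a b : H) (i : Fin 4) : (a * b).x i = a.x i + b.x i := rfl
@[simp] lemma mul_f (a b : H) (i : Fin 4) :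
    (a * b).f i = a.f i + b.f i + a.x i * b.x (i + 1) := rfl
@[simp] lemma mul_z (a b : H) : (a * b).z =
    a.z + b.z + (a.x 0 * b.f 1 + a.x 1 * b.f 2 + a.x 2 * b.f 3 + a.x 3 * b.f 0) +
    (a.f 0 * b.x 2 + a.f 1 * b.x 3 + a.f 2 * b.x 0 + a.f 3 * b.x 1) := rfl
@[simp] lemma one_x (i : Fin 4) : (1 : H).x i = 0 := rfl
@[simp] lemma one_f (i : Fin 4) : (1 : H).f i = 0 := rfl
@[simp] lemma one_z : (1 : H).z = 0 := rfl
@[simp] lemma inv_x (a : H) (i : Fin 4) : (a⁻¹).x i = -a.x i := rfl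
@[simp] lemma inv_f (a : H) (i : Fin 4) : (a⁻¹).f i = -a.f i + a.x i * a.x (i + 1) := rfl
@[simp] lemma inv_z (a : H) : (a⁻¹).z =
    -a.z + (a.x 0 * a.f 1 + a.x 1 * a.f 2 + a.x 2 * a.f 3 + a.x 3 * a.f 0) +
    (a.f 0 * a.x 2 + a.f 1 * a.x 3 + a.f 2 * a.x 0 + a.f 3 * a.x 1) -
    (a.x 0 * a.x 1 * a.x 2 + a.x 1 * a.x 2 * a.x 3 + a.x 2 * a.x 3 * a.x 0 +
      a.x 3 * a.x 0 * a.x 1) := rfl

instance : Group H := Group.ofLeftAxioms
  (fun a b c => by ext <;> simp <;> ring)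
  (fun a => by ext <;> simp)
  (fun a => by ext <;> simp <;> ring)

/-- the power `u_i ^ n` -/
def U (i : Fin 4) (n : ℤ) : H := ⟨Pi.single i n, 0, 0⟩

@[simp] lemma U_x (i : Fin 4) (n : ℤ) (k : Fin 4) : (U i n).x k = if k = i then n else 0 := by
  simp [U, Pi.single_apply]
@[simp] lemma U_f (i : Fin 4) (n : ℤ) (k : Fin 4) : (U i n).f k = 0 := rfl
@[simp] lemma U_z (i : Fin 4) (n : ℤ) : (U i n).z = 0 := rfl

lemma U_add (i : Fin 4) (m n : ℤ) : U i (m + n) = U i m * U i n := by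
  ext k
  · simp; split_ifs <;> simp
  · fin_cases i <;> fin_cases k <;> simp
  · simp

lemma U_zero (i : Fin 4) : U i 0 = 1 := by ext <;> simp

lemma U_neg (i : Fin 4) (n : ℤ) : U i (-n) = (U i n)⁻¹ :=
  eq_inv_of_mul_eq_one_left (by rw [← U_add, neg_add_cancel, U_zero])

lemma U_pow (i : Fin 4) (n : ℕ) : U i 1 ^ n = U i n := by
  induction n with
  | zero => simp [U_zero]
  | succ n ih => rw [pow_succ, ih, ← U_add]; simp

lemma U_zpow (i : Fin 4) (n : ℤ) : U i 1 ^ n = U i n := by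
  obtain ⟨m, rfl | rfl⟩ := n.eq_nat_or_neg
  · simp [U_pow]
  · simp [U_pow, U_neg]

/-- membership in the normal closure of `u_j` -/
def InN (j : Fin 4) (a : H) : Prop :=
  a.x (j + 1) = 0 ∧ a.x (j + 2) = 0 ∧ a.x (j + 3) = 0 ∧ a.f (j + 1) = 0 ∧ a.f (j + 2) = 0

def lg (j : Fin 4) (a : H) : Fin 4 → ℤ := ![a.x j, a.f (j + 3), a.f j, a.z]

lemma InN.one (j : Fin 4) : InN j 1 := by simp [InN]

lemma InN.mul {j : Fin 4} {a b : H} (ha : InN j a) (hb : InN j b) : InN j (a * b) := by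
  obtain ⟨a1, a2, a3, a4, a5⟩ := ha
  obtain ⟨b1, b2, b3, b4, b5⟩ := hb
  fin_cases j <;> simp_all [InN]

lemma InN.conj {j : Fin 4} {a : H} (ha : InN j a) (g : H) : InN j (g * a * g⁻¹) := by
  obtain ⟨a1, a2, a3, a4, a5⟩ := ha
  fin_cases j <;> simp_all [InN]

lemma InN.U (j : Fin 4) (n : ℤ) : InN j (U j n) := by
  fin_cases j <;> simp [InN]

lemma lg_one (j : Fin 4) : lg j 1 = 0 := by
  ext k; fin_cases k <;> simp [lg]

lemma lg_mul {j : Fin 4} {a b : H} (ha : InN j a) (hb : InN j b) :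
    lg j (a * b) = lg j a + lg j b := by
  obtain ⟨a1, a2, a3, a4, a5⟩ := ha
  obtain ⟨b1, b2, b3, b4, b5⟩ := hb
  ext k
  fin_cases j <;> fin_cases k <;> simp_all [lg]

lemma lg_inj {j : Fin 4} {a b : H} (ha : InN j a) (hb : InN j b) (h : lg j a = lg j b) : a = b := by
  obtain ⟨a1, a2, a3, a4, a5⟩ := ha
  obtain ⟨b1, b2, b3, b4, b5⟩ := hb
  have h0 := congrFun h 0
  have h1 := congrFun h 1
  have h2 := congrFun h 2
  have h3 := congrFun h 3
  ext k
  · fin_cases j <;> fin_cases k <;> simp_all [lg]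
  · fin_cases j <;> fin_cases k <;> simp_all [lg]
  · simpa [lg] using h3

/-- third coordinate of the conjugate of `u_j` -/
def psi (j : Fin 4) (P : H) : ℤ :=
  P.f (j + 2) - P.x (j + 3) * P.x (j + 1) + P.x (j + 1) * P.x (j + 2) - P.f (j + 1)

def phi (j : Fin 4) (P : H) : Fin 4 → ℤ := ![1, P.x (j + 3), -P.x (j + 1), psi j P]

lemma lg_conj (j : Fin 4) (P : H) (n : ℤ) : lg j (P * U j n * P⁻¹) = n • phi j P := by
  ext k
  fin_cases j <;> fin_cases k <;> simp [lg, phi, psi] <;> ring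

def al (j : Fin 4) (P : H) : ℤ := P.x (j + 2) - P.x (j + 1)
def be (j : Fin 4) (P : H) : ℤ := P.x (j + 2) - P.x (j + 3)

lemma phi_a (j : Fin 4) (P : H) : phi j (P * U (j + 3) 1) = phi j P + ![0, 1, 0, al j P] := by
  ext k
  fin_cases j <;> fin_cases k <;> simp [phi, psi, al] <;> ring

lemma phi_b (j : Fin 4) (P : H) : phi j (P * U (j + 1) 1) = phi j P + ![0, 0, -1, be j P] := by
  ext k
  fin_cases j <;> fin_cases k <;> simp [phi, psi, be] <;> ring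

lemma phi_one (j : Fin 4) : phi j 1 = ![1, 0, 0, 0] := by
  ext k
  fin_cases k <;> simp [phi, psi]

lemma phi_c (j : Fin 4) : phi j (U (j + 2) 1) = ![1, 0, 0, 0] ∧ al j (U (j + 2) 1) = 1 := by
  constructor
  · ext k
    fin_cases j <;> fin_cases k <;> simp [phi, psi]
  · fin_cases j <;> simp [al]

lemma step_bounds (j i : Fin 4) (P : H) (e : ℤ) (he : e = 1 ∨ e = -1) :
    |(P * U i e).x (j + 3) - P.x (j + 3)| ≤ 1 ∧ |(P * U i e).x (j + 1) - P.x (j + 1)| ≤ 1 ∧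
    |psi j (P * U i e) - psi j P| ≤ max |al j P| |be j P| ∧
    |al j (P * U i e) - al j P| ≤ 1 ∧ |be j (P * U i e) - be j P| ≤ 1 := by
  have key : psi j (P * U i e) - psi j P =
      if i = j + 3 then e * al j P else if i = j + 1 then e * be j P else 0 := by
    fin_cases j <;> fin_cases i <;> simp [psi, al, be] <;> ring
  refine ⟨?_, ?_, ?_, ?_, ?_⟩
  · rcases he with rfl | rfl <;> simp <;> split_ifs <;> simp
  · rcases he with rfl | rfl <;> simp <;> split_ifs <;> simp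
  · rw [key]
    rcases he with rfl | rfl <;> split_ifs <;> simp
  · have : al j (P * U i e) - al j P = (if j + 2 = i then e else 0) - (if j + 1 = i then e else 0) := by
      simp [al]; ring
    rw [this]
    rcases he with rfl | rfl <;> fin_cases j <;> fin_cases i <;> simp
  · have : be j (P * U i e) - be j P = (if j + 2 = i then e else 0) - (if j + 3 = i then e else 0) := by
      simp [be]; ring
    rw [this]
    rcases he with rfl | rfl <;> fin_cases j <;> fin_cases i <;> simp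

/-- cyclic shift -/
def sh (s : Fin 4) (a : H) : H := ⟨fun i => a.x (i - s), fun i => a.f (i - s), a.z⟩

@[simp] lemma sh_x (s : Fin 4) (a : H) (i : Fin 4) : (sh s a).x i = a.x (i - s) := rfl
@[simp] lemma sh_f (s : Fin 4) (a : H) (i : Fin 4) : (sh s a).f i = a.f (i - s) := rfl
@[simp] lemma sh_z (s : Fin 4) (a : H) : (sh s a).z = a.z := rfl

lemma sh_mul (s : Fin 4) (a b : H) : sh s (a * b) = sh s a * sh s b := by
  ext k
  · simp
  · simp [add_sub_right_comm]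
  · have m1 : (-1 : Fin 4) = 3 := rfl
    have m2 : (-2 : Fin 4) = 2 := rfl
    have m3 : (-3 : Fin 4) = 1 := rfl
    fin_cases s <;> simp [m1, m2, m3] <;> ring

lemma sh_sh (s t : Fin 4) (a : H) : sh s (sh t a) = sh (s + t) a := by
  ext k <;> simp [sub_sub]

lemma sh_zero (a : H) : sh 0 a = a := by ext <;> simp

lemma sh_one (s : Fin 4) : sh s 1 = 1 := by ext <;> simp

lemma sh_U (s : Fin 4) (n : ℤ) : sh s (U 0 n) = U s n := by
  ext k <;> simp [sub_eq_zero]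

@[ext] structure G where
  h : H
  s : Fin 4

instance : Mul G := ⟨fun a b => ⟨a.h * sh a.s b.h, a.s + b.s⟩⟩
instance : One G := ⟨⟨1, 0⟩⟩
instance : Inv G := ⟨fun a => ⟨sh (-a.s) a.h⁻¹, -a.s⟩⟩

@[simp] lemma gmul_h (a b : G) : (a * b).h = a.h * sh a.s b.h := rfl
@[simp] lemma gmul_s (a b : G) : (a * b).s = a.s + b.s := rfl
@[simp] lemma gone_h : (1 : G).h = 1 := rfl
@[simp] lemma gone_s : (1 : G).s = 0 := rfl
@[simp] lemma ginv_h (a : G) : (a⁻¹).h = sh (-a.s) a.h⁻¹ := rfl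
@[simp] lemma ginv_s (a : G) : (a⁻¹).s = -a.s := rfl

instance : Group G := Group.ofLeftAxioms
  (fun a b c => G.ext (by simp only [gmul_h, gmul_s, sh_mul, sh_sh, mul_assoc]) (add_assoc _ _ _))
  (fun a => G.ext (by simp only [gmul_h, gone_h, gone_s, sh_zero, one_mul]) (zero_add _))
  (fun a => G.ext (by simp only [gmul_h, ginv_h, ginv_s, gone_h, ← sh_mul, inv_mul_cancel, sh_one])
    (neg_add_cancel _))

def inl : H →* G where
  toFun a := ⟨a, 0⟩
  map_one' := rfl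
  map_mul' a b := G.ext (by simp [sh_zero]) (by simp)

@[simp] lemma inl_h (a : H) : (inl a).h = a := rfl
@[simp] lemma inl_s (a : H) : (inl a).s = 0 := rfl

lemma comm3 (a b c : ℤ) : (⁅⁅U 0 a, U 1 b⁆, U 2 c⁆).z = a * b * c := by
  simp [commutatorElement_def]

lemma gen_H (K : Subgroup H) (hK : ∀ i, U i 1 ∈ K) : K = ⊤ := by
  have hU : ∀ i n, U i n ∈ K := fun i n => U_zpow i n ▸ K.zpow_mem (hK i) n
  have hc : ∀ a ∈ K, ∀ b ∈ K, ⁅a, b⁆ ∈ K := fun a ha b hb =>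
    K.mul_mem (K.mul_mem (K.mul_mem ha hb) (K.inv_mem ha)) (K.inv_mem hb)
  have hz : ∀ a : H, (∀ i, a.x i = 0) → (∀ i, a.f i = 0) → a ∈ K := by
    intro a h1 h2
    have : a = ⁅⁅U 0 a.z, U 1 1⁆, U 2 1⁆ := by
      ext k
      · simp [h1, commutatorElement_def]
      · fin_cases k <;> simp [h2, commutatorElement_def]
      · rw [comm3]; ring
    rw [this]
    exact hc _ (hc _ (hU _ _) _ (hU _ _)) _ (hU _ _)
  have hf : ∀ a : H, (∀ i, a.x i = 0) → a ∈ K := by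
    intro a h1
    set b := ⁅U 0 (a.f 0), U 1 1⁆ * ⁅U 1 (a.f 1), U 2 1⁆ * ⁅U 2 (a.f 2), U 3 1⁆ *
      ⁅U 3 (a.f 3), U 0 1⁆ with hb
    have b1 : b ∈ K := K.mul_mem (K.mul_mem (K.mul_mem (hc _ (hU _ _) _ (hU _ _))
      (hc _ (hU _ _) _ (hU _ _))) (hc _ (hU _ _) _ (hU _ _))) (hc _ (hU _ _) _ (hU _ _))
    have bx : ∀ i, b.x i = 0 := fun i => by simp [hb, commutatorElement_def]
    have bf : ∀ i, b.f i = a.f i := fun i => by
      fin_cases i <;> simp [hb, commutatorElement_def]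
    have := K.mul_mem b1 (hz (b⁻¹ * a) (fun i => by simp [bx, h1]) (fun i => by simp [bx, bf]))
    simpa using this
  rw [eq_top_iff]
  intro a _
  set b := U 0 (a.x 0) * U 1 (a.x 1) * U 2 (a.x 2) * U 3 (a.x 3) with hb
  have b1 : b ∈ K := K.mul_mem (K.mul_mem (K.mul_mem (hU _ _) (hU _ _)) (hU _ _)) (hU _ _)
  have bx : ∀ i, b.x i = a.x i := fun i => by fin_cases i <;> simp [hb]
  have := K.mul_mem b1 (hf (b⁻¹ * a) (fun i => by simp [bx]))
  simpa using this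

end Pool.Agent.H571Z.Geo
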