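import Pool.Agent.H571Z.Geo.Word

set_option autoImplicit false

namespace Pool.Agent.H571Z.Geo

open Finset

lemma divt (α : ℕ → ℤ) (h0 : α 0 = 0) (n : ℕ) (hs : ∀ τ, τ < n → |α (τ + 1) - α τ| ≤ 1) (e : ℤ)
    (he : |e| ≤ |α n|) : ∃ τ, τ ≤ n ∧ (α τ = e ∨ α τ = -e) := by
  induction n with
  | zero =>
    rw [h0, abs_zero] at he
    exact ⟨0, le_rfl, Or.inl (by rw [h0]; exact (abs_nonpos_iff.1 he).symm)⟩
  | succ n ih =>
    by_cases h : |e| ≤ |α n|
    · obtain ⟨τ, h1, h2⟩ := ih (fun τ hτ => hs τ (by omega)) h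
      exact ⟨τ, by omega, h2⟩
    · refine ⟨n + 1, le_rfl, abs_eq_abs.1 ?_⟩
      have h1 := hs n (by omega)
      have h2 := abs_sub_abs_le_abs_sub (α (n + 1)) (α n)
      omega

variable {j : Fin 4} {w : List Le}

lemma Good.of_eq {m m' : Fin 4 → ℤ} {l c l' c' : ℕ} (h : Good j w m l c) (e : m' = m)
    (hl : l ≤ l') (hc : c ≤ c') : Good j w m' l' c' := e ▸ h.mono hl hc

lemma take_step (w : List Le) (τ : ℕ) (hτ : τ < w.length) :
    ∃ i e, (e = 1 ∨ e = -1) ∧ val (w.take (τ + 1)) = val (w.take τ) * U i e := by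
  refine ⟨(w[τ]).1, sg (w[τ]).2, sg_cases _, ?_⟩
  rw [List.take_add_one, val_append, List.getElem?_eq_getElem hτ]
  simp [gen]

lemma at0 (n : ℤ) : Good j w (n • ![1, 0, 0, 0]) n.natAbs 2 := by
  have := Good.atom (j := j) (w := w) 0 (Nat.zero_le _) [] n
  simpa [phi_one] using this

lemma at1 (τ : ℕ) (hτ : τ ≤ w.length) (n : ℤ) :
    Good j w (n • phi j (val (w.take τ))) n.natAbs 2 := by
  have := Good.atom (j := j) (w := w) τ hτ [] n
  simpa using this

lemma at2 (τ : ℕ) (hτ : τ ≤ w.length) (i : Fin 4) (n : ℤ) :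
    Good j w (n • phi j (val (w.take τ) * U i 1)) (n.natAbs + 2) 6 := by
  have := Good.atom (j := j) (w := w) τ hτ [(i, true)] n
  simpa [gen, sg] using this

lemma at3 (n : ℤ) :
    Good j w (n • phi j (U (j + 2) 1 * U (j + 3) 1)) (n.natAbs + 4) 10 := by
  have := Good.atom (j := j) (w := w) 0 (Nat.zero_le _) [(j + 2, true), (j + 3, true)] n
  simpa [gen, sg] using this

lemma goodA (τ : ℕ) (hτ : τ ≤ w.length) (n : ℤ) :
    Good j w (n • ![0, 1, 0, al j (val (w.take τ))]) (2 * n.natAbs + 2) 8 := by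
  have := (at2 (j := j) τ hτ (j + 3) n).add (at1 τ hτ (-n))
  rw [phi_a] at this
  convert this using 1
  · module
  · simp; ring

lemma goodB (τ : ℕ) (hτ : τ ≤ w.length) (n : ℤ) :
    Good j w (n • ![0, 0, -1, be j (val (w.take τ))]) (2 * n.natAbs + 2) 8 := by
  have := (at2 (j := j) τ hτ (j + 1) n).add (at1 τ hτ (-n))
  rw [phi_b] at this
  convert this using 1
  · module
  · simp; ring

lemma goodA0 (n : ℤ) : Good j w (n • ![0, 1, 0, 0]) (2 * n.natAbs + 2) 8 := by
  simpa [al] using goodA (j := j) (w := w) 0 (Nat.zero_le _) n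

lemma goodB0 (n : ℤ) : Good j w (n • ![0, 0, -1, 0]) (2 * n.natAbs + 2) 8 := by
  simpa [be] using goodB (j := j) (w := w) 0 (Nat.zero_le _) n

lemma goodZA (τ : ℕ) (hτ : τ ≤ w.length) (n : ℤ) :
    Good j w ![0, 0, 0, n * al j (val (w.take τ))] (4 * n.natAbs + 6) 20 := by
  have := (goodA (j := j) τ hτ n).add (goodA0 (-n))
  refine this.of_eq ?_ (by omega) (by norm_num)
  ext k; fin_cases k <;> simp

lemma goodZB (τ : ℕ) (hτ : τ ≤ w.length) (n : ℤ) :
    Good j w ![0, 0, 0, n * be j (val (w.take τ))] (4 * n.natAbs + 6) 20 := by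
  have := (goodB (j := j) τ hτ n).add (goodB0 (-n))
  refine this.of_eq ?_ (by omega) (by norm_num)
  ext k; fin_cases k <;> simp

lemma goodZ1 (n : ℤ) : Good j w ![0, 0, 0, n] (4 * n.natAbs + 6) 20 := by
  have := ((at3 (j := j) (w := w) n).add (at0 (-n))).add (goodA0 (-n))
  rw [phi_a, (phi_c j).1, (phi_c j).2] at this
  refine this.of_eq ?_ (by omega) (by norm_num)
  ext k; fin_cases k <;> simp

lemma exists_R (j : Fin 4) (w : List Le) : ∃ R : ℤ, 1 ≤ R ∧
    (∀ τ, τ ≤ w.length → |al j (val (w.take τ))| ≤ R ∧ |be j (val (w.take τ))| ≤ R) ∧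
    ∀ a : ℤ, |a| ≤ R → ∀ n : ℤ, Good j w ![0, 0, 0, n * a] (4 * n.natAbs + 6) 20 := by
  obtain ⟨t, ht, hmax⟩ := exists_max_image (range (w.length + 1))
    (fun τ => max |al j (val (w.take τ))| |be j (val (w.take τ))|) ⟨0, by simp⟩
  have ht' : t ≤ w.length := by have := mem_range.1 ht; omega
  refine ⟨max 1 (max |al j (val (w.take t))| |be j (val (w.take t))|), le_max_left _ _,
    fun τ hτ => ?_, fun a ha n => ?_⟩
  · have := hmax τ (mem_range.2 (by omega))
    exact ⟨le_max_of_le_right ((le_max_left _ _).trans this),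
      le_max_of_le_right ((le_max_right _ _).trans this)⟩
  · rcases le_max_iff.1 ha with h | h
    · have : a = 0 ∨ a = 1 ∨ a = -1 := by have := abs_le.1 h; omega
      rcases this with rfl | rfl | rfl
      · refine Good.zero.of_eq ?_ (Nat.zero_le _) (Nat.zero_le _)
        ext k; fin_cases k <;> simp
      · simpa using goodZ1 n
      · simpa using goodZ1 (j := j) (w := w) (-n)
    · rcases le_max_iff.1 h with h | h
      · obtain ⟨τ, h1, h2⟩ := divt (fun τ => al j (val (w.take τ))) (by simp [al]) t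
          (fun τ hτ => by
            obtain ⟨i, e, he, h3⟩ := take_step w τ (by omega)
            simp only [h3]
            exact (step_bounds j i _ e he).2.2.2.1) a h
        rcases h2 with h2 | h2
        · simpa only [h2] using goodZA (j := j) (w := w) τ (by omega) n
        · have := goodZA (j := j) (w := w) τ (by omega) (-n)
          simpa only [h2, neg_mul_neg, Int.natAbs_neg] using this
      · obtain ⟨τ, h1, h2⟩ := divt (fun τ => be j (val (w.take τ))) (by simp [be]) t
          (fun τ hτ => by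
            obtain ⟨i, e, he, h3⟩ := take_step w τ (by omega)
            simp only [h3]
            exact (step_bounds j i _ e he).2.2.2.2) a h
        rcases h2 with h2 | h2
        · simpa only [h2] using goodZB (j := j) (w := w) τ (by omega) n
        · have := goodZB (j := j) (w := w) τ (by omega) (-n)
          simpa only [h2, neg_mul_neg, Int.natAbs_neg] using this

lemma good_err {R : ℤ} (hR : 1 ≤ R)
    (hZ : ∀ a : ℤ, |a| ≤ R → ∀ n : ℤ, Good j w ![0, 0, 0, n * a] (4 * n.natAbs + 6) 20)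
    (e : Fin 4 → ℤ) (h0 : e 0 = 0) (h1 : |e 1| ≤ 39) (h2 : |e 2| ≤ 39) (h3 : |e 3| ≤ 39 * R) :
    Good j w e 400 60 := by
  have hR0 : 0 < R := by omega
  have a1 := Int.emod_nonneg (e 3) hR0.ne'
  have a2 := Int.emod_lt_of_pos (e 3) hR0
  have a3 := Int.emod_add_mul_ediv (e 3) R
  have a4 : |e 3 / R| ≤ 40 := by
    have := abs_le.1 h3
    rw [abs_le]
    constructor <;> nlinarith [this.1, this.2]
  have := (((goodA0 (j := j) (w := w) (e 1)).add (goodB0 (-e 2))).add
    (hZ R (by rw [abs_of_pos hR0]) (e 3 / R))).add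
    (hZ (e 3 % R) (by rw [abs_of_nonneg a1]; omega) 1)
  refine this.of_eq ?_ ?_ (by norm_num)
  · ext k; fin_cases k <;> simp [h0]
    linarith
  · have := abs_le.1 h1
    have := abs_le.1 h2
    have := abs_le.1 a4
    omega

lemma good_rem {ι : Type} [Fintype ι] (hι : Fintype.card ι ≤ 5) (θ : ι → ℝ) (hθ : ∀ i, |θ i| ≤ 1)
    (τ : ι → ℕ) (hτ : ∀ i, τ i ≤ w.length) (r : Fin 4 → ℤ)
    (hr : ∀ k, (r k : ℝ) = ∑ i, θ i * (phi j (val (w.take (τ i))) k : ℝ)) :
    Good j w r 500 100 := by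
  obtain ⟨R, hR, hb, hZ⟩ := exists_R j w
  have hRr : (0:ℝ) < R := by exact_mod_cast (by omega : (0:ℤ) < R)
  set P : ℕ → Fin 4 → ℤ := fun t => phi j (val (w.take t)) with hP
  have P0 : ∀ t, P t 0 = 1 := fun t => rfl
  have r0 : |r 0| ≤ 5 := by
    have : |(r 0 : ℝ)| ≤ 5 := by
      rw [hr]
      refine (abs_sum_le_sum_abs _ _).trans ((sum_le_card_nsmul _ _ 1 fun i _ => ?_).trans ?_)
      · simpa [phi] using hθ i
      · simp only [card_univ, nsmul_eq_mul, mul_one]
        exact_mod_cast hι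
    exact_mod_cast this
  obtain ⟨k, t, s, hk, he⟩ := bss (fun t => ![(P t 1 : ℝ), (P t 2 : ℝ), (P t 3 : ℝ) / R])
    (by ext k; fin_cases k <;> simp [hP, phi_one]) w.length (fun τ hτ => by
      obtain ⟨i, e, he, h3⟩ := take_step w τ hτ
      obtain ⟨b1, b2, b3, -, -⟩ := step_bounds j i (val (w.take τ)) e he
      rw [← h3] at b1 b2 b3
      have b4 := b3.trans (max_le (hb τ hτ.le).1 (hb τ hτ.le).2)
      refine (pi_norm_le_iff_of_nonneg zero_le_one).2 fun k => ?_
      fin_cases k
      · simp only [hP, phi, Real.norm_eq_abs]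
        simpa using (by exact_mod_cast b1 : |((val (w.take (τ + 1))).x (j + 3) : ℝ) -
          (val (w.take τ)).x (j + 3)| ≤ 1)
      · have : |-((val (w.take (τ + 1))).x (j + 1) : ℝ) + (val (w.take τ)).x (j + 1)| ≤ 1 := by
          rw [neg_add_eq_sub, abs_sub_comm]
          exact_mod_cast b2
        simpa [hP, phi] using this
      · have : |(psi j (val (w.take (τ + 1))) : ℝ) / R - psi j (val (w.take τ)) / R| ≤ 1 := by
          rw [← sub_div, abs_div, abs_of_pos hRr, div_le_one hRr]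
          exact_mod_cast b4
        simpa [hP, phi] using this) hι θ hθ τ hτ
  have he' := fun c => (norm_le_pi_norm _ c).trans he
  set e : Fin 4 → ℤ := r - (r 0 - ∑ i, (k i + 1)) • ![1, 0, 0, 0] -
    ∑ i, (k i • P (t i) + (1:ℤ) • P (s i)) with hee
  have ec : ∀ c : Fin 4, c ≠ 0 → (e c : ℝ) = ∑ i, θ i * (P (τ i) c : ℝ) -
      ∑ i, ((k i : ℝ) * P (t i) c + P (s i) c) := by
    intro c hc
    have : (![1, 0, 0, 0] : Fin 4 → ℤ) c = 0 := by fin_cases c <;> simp_all
    simp only [hee, Pi.sub_apply, Pi.smul_apply, this, mul_zero, sub_zero, Finset.sum_apply,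
      Pi.add_apply, smul_eq_mul, one_mul]
    push_cast
    rw [hr]
  have g1 : Good j w e 400 60 := by
    refine good_err hR hZ e ?_ ?_ ?_ ?_
    · simp only [hee, Pi.sub_apply, Pi.smul_apply, Finset.sum_apply, Pi.add_apply, smul_eq_mul,
        P0, mul_one, Matrix.cons_val_zero]
      ring
    · have := he' 0
      simp only [Real.norm_eq_abs, Pi.sub_apply, Finset.sum_apply, Pi.add_apply, Pi.smul_apply,
        smul_eq_mul, Matrix.cons_val_zero] at this
      rw [← ec 1 (by decide)] at this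
      exact_mod_cast this
    · have := he' 1
      simp only [Real.norm_eq_abs, Pi.sub_apply, Finset.sum_apply, Pi.add_apply, Pi.smul_apply,
        smul_eq_mul, Matrix.cons_val_one, Matrix.cons_val_zero] at this
      rw [← ec 2 (by decide)] at this
      exact_mod_cast this
    · have := he' 2
      simp only [Real.norm_eq_abs, Pi.sub_apply, Finset.sum_apply, Pi.add_apply, Pi.smul_apply,
        smul_eq_mul, Matrix.cons_val] at this
      have e3 : (∑ i, θ i * ((P (τ i) 3 : ℝ) / R) -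
          ∑ i, ((k i : ℝ) * ((P (t i) 3 : ℝ) / R) + (P (s i) 3 : ℝ) / R)) = (e 3 : ℝ) / R := by
        rw [ec 3 (by decide), sub_div, sum_div, sum_div]
        congr 1
        · exact sum_congr rfl fun i _ => by ring
        · exact sum_congr rfl fun i _ => by ring
      rw [e3, abs_div, abs_of_pos hRr, div_le_iff₀ hRr] at this
      exact_mod_cast this
  have g2 := Good.sum (j := j) (w := w) univ (fun i => k i • P (t i) + (1:ℤ) • P (s i))
    (fun _ => 13) (fun _ => 4) fun i _ => by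
      refine ((at1 (t i) (hk i).2.1 (k i)).add (at1 (s i) (hk i).2.2 1)).mono ?_ le_rfl
      have := abs_le.1 (hk i).1
      omega
  have g3 := at0 (j := j) (w := w) (r 0 - ∑ i, (k i + 1))
  have := (g1.add g3).add g2
  refine this.of_eq ?_ ?_ (by simp)
  · rw [hee]; abel
  · have := abs_le.1 (hk 0).1
    have := abs_le.1 (hk 1).1
    have := abs_le.1 (hk 2).1
    have := abs_le.1 r0
    simp only [Fin.sum_univ_three]
    omega

lemma good_main (n : ℕ → ℤ) :
    Good j w (∑ τ ∈ range (w.length + 1), n τ • phi j (val (w.take τ)))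
      (∑ τ ∈ range (w.length + 1), (n τ).natAbs + 500) 110 := by
  obtain ⟨ι, _, τ, m, θ, hι, hτ, hm, he⟩ :=
    cara (fun t k => (phi j (val (w.take t)) k : ℝ)) w.length n
  have g1 := Good.sum (j := j) (w := w) univ (fun i => m i • phi j (val (w.take (τ i))))
    (fun i => (m i).natAbs) (fun _ => 2) fun i _ => at1 (τ i) (hτ i).1 (m i)
  have g2 := good_rem (j := j) (w := w) hι θ (fun i => (hτ i).2) τ (fun i => (hτ i).1)
    (∑ τ ∈ range (w.length + 1), n τ • phi j (val (w.take τ)) -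
      ∑ i, m i • phi j (val (w.take (τ i)))) (fun k => by
      have := congrFun he k
      simp only [Finset.sum_apply, Pi.add_apply, Pi.smul_apply, smul_eq_mul] at this
      simp only [Finset.sum_apply, Pi.sub_apply, Pi.smul_apply, smul_eq_mul]
      push_cast
      linarith)
  have := g1.add g2
  rw [add_sub_cancel] at this
  refine this.mono ?_ ?_
  · have : ((∑ i, (m i).natAbs : ℕ) : ℤ) ≤ (∑ τ ∈ range (w.length + 1), (n τ).natAbs : ℕ) := by
      push_cast
      exact hm
    omega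
  · simp only [sum_const, card_univ, smul_eq_mul]
    omega

theorem step (j : Fin 4) (w : List Le) : ∃ w' : List Le, val w' = val w ∧
    w'.length ≤ w.length + 500 ∧ ∀ i s, cnt i s w' ≤ (if i = j then 0 else cnt i s w) + 110 := by
  obtain ⟨σ0, h1, h2⟩ := exists_weave j w
  set w0 := w.filter fun a => a.1 ≠ j with hw0
  choose n hn1 hn2 using fun τ => val_j j (σ0 τ) (h1 τ)
  obtain ⟨σ, cc, g1, g2, g3, g4⟩ := good_main (j := j) (w := w0) n
  refine ⟨weave w0 σ, ?_, ?_, fun i s => ?_⟩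
  · obtain ⟨a1, a2⟩ := weave_val j w0 σ (fun τ => (g1 τ).1) 1
    obtain ⟨b1, b2⟩ := weave_val j w0 σ0 (fun τ => hn1 τ ▸ InN.U j _) 1
    simp only [one_mul, inv_one, mul_one] at a1 a2 b1 b2
    rw [h2] at b1 b2
    have := lg_inj a1 b1 (by
      rw [a2, b2, g2]
      refine sum_congr rfl fun τ _ => ?_
      rw [hn1, lg_conj])
    exact mul_right_cancel this
  · have a := weave_length w0 σ0
    rw [h2] at a
    rw [weave_length, a]
    have : ∑ τ ∈ range (w0.length + 1), (n τ).natAbs ≤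
        ∑ τ ∈ range (w0.length + 1), (σ0 τ).length := sum_le_sum fun τ _ => by
      have := abs_le.1 (hn2 τ)
      omega
    omega
  · have a := weave_cnt w0 σ cc (fun τ => (g1 τ).2) i s s id
    have b := cnt_filter j i w s s id
    rw [← hw0] at b
    omega

def sw : Fin 4 → List Le → ℕ
  | _, [] => 0
  | s, a :: w => (if s = a.1 then 0 else 1) + sw a.1 w

lemma sw_eq (s : Fin 4) (w : List Le) : sw s w = cnt 0 s w + cnt 1 s w + cnt 2 s w + cnt 3 s w := by
  induction w generalizing s with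
  | nil => simp [sw, cnt]
  | cons a w ih =>
    obtain ⟨i, b⟩ := a
    simp only [sw, cnt, ih]
    fin_cases s <;> fin_cases i <;> simp <;> omega

theorem bsp (w : List Le) : ∃ w' : List Le, val w' = val w ∧
    w'.length ≤ w.length + 2000 ∧ ∀ s, sw s w' ≤ 2000 := by
  obtain ⟨w1, a1, b1, c1⟩ := step 0 w
  obtain ⟨w2, a2, b2, c2⟩ := step 1 w1
  obtain ⟨w3, a3, b3, c3⟩ := step 2 w2
  obtain ⟨w4, a4, b4, c4⟩ := step 3 w3
  refine ⟨w4, by rw [a4, a3, a2, a1], by omega, fun s => ?_⟩
  have d1 := c1 0 s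
  have d2 := c2 0 s
  have d3 := c3 0 s
  have d4 := c4 0 s
  have d5 := c2 1 s
  have d6 := c3 1 s
  have d7 := c4 1 s
  have d8 := c3 2 s
  have d9 := c4 2 s
  have d10 := c4 3 s
  simp at d1 d2 d3 d4 d5 d6 d7 d8 d9 d10
  rw [sw_eq]
  omega

end Pool.Agent.H571Z.Geo
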