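import Pool.Agent.H571Z.Geo.Grp
import Pool.Agent.H571Z.Geo.BSS

set_option autoImplicit false

namespace Pool.Agent.H571Z.Geo

open Finset

abbrev Le := Fin 4 × Bool

def sg (b : Bool) : ℤ := if b then 1 else -1

lemma sg_cases (b : Bool) : sg b = 1 ∨ sg b = -1 := by cases b <;> simp [sg]

def gen (l : Le) : H := U l.1 (sg l.2)

def val (w : List Le) : H := (w.map gen).prod

@[simp] lemma val_nil : val [] = 1 := rfl
@[simp] lemma val_cons (a : Le) (w : List Le) : val (a :: w) = gen a * val w := by simp [val]
@[simp] lemma val_append (v w : List Le) : val (v ++ w) = val v * val w := by simp [val]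

def weave : List Le → (ℕ → List Le) → List Le
  | [], σ => σ 0
  | a :: w, σ => σ 0 ++ a :: weave w (fun n => σ (n + 1))

lemma weave_length (w : List Le) (σ : ℕ → List Le) :
    (weave w σ).length = w.length + ∑ τ ∈ range (w.length + 1), (σ τ).length := by
  induction w generalizing σ with
  | nil => simp [weave]
  | cons a w ih =>
    simp only [weave, List.length_append, List.length_cons, ih]
    rw [sum_range_succ' _ (w.length + 1)]
    omega

lemma weave_val (j : Fin 4) (w : List Le) (σ : ℕ → List Le) (hσ : ∀ τ, InN j (val (σ τ))) (g : H) :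
    InN j (g * (val (weave w σ) * (val w)⁻¹) * g⁻¹) ∧
    lg j (g * (val (weave w σ) * (val w)⁻¹) * g⁻¹) = ∑ τ ∈ range (w.length + 1),
      lg j (g * val (w.take τ) * val (σ τ) * (g * val (w.take τ))⁻¹) := by
  induction w generalizing σ g with
  | nil => simpa [weave] using (hσ 0).conj g
  | cons a w ih =>
    obtain ⟨h1, h2⟩ := ih (fun n => σ (n + 1)) (fun τ => hσ _) (g * gen a)
    have e : g * (val (weave (a :: w) σ) * (val (a :: w))⁻¹) * g⁻¹ = (g * val (σ 0) * g⁻¹) *
        (g * gen a * (val (weave w fun n => σ (n + 1)) * (val w)⁻¹) * (g * gen a)⁻¹) := by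
      simp only [weave, val_append, val_cons]
      group
    rw [e]
    refine ⟨((hσ 0).conj g).mul h1, ?_⟩
    rw [lg_mul ((hσ 0).conj g) h1, h2, List.length_cons, sum_range_succ' _ (w.length + 1), add_comm]
    simp [mul_assoc]

def cnt (i : Fin 4) : Fin 4 → List Le → ℕ
  | _, [] => 0
  | s, a :: w => (if a.1 = i ∧ s ≠ i then 1 else 0) + cnt i a.1 w

lemma cnt_mono (i : Fin 4) {s s' : Fin 4} (h : s' = i → s = i) (w : List Le) :
    cnt i s w ≤ cnt i s' w := by
  cases w with
  | nil => simp [cnt]
  | cons a w =>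
    simp only [cnt]
    refine Nat.add_le_add_right ?_ _
    split_ifs with h1 h2
    · rfl
    · exact absurd ⟨h1.1, fun h3 => h1.2 (h h3)⟩ h2
    · omega
    · rfl

lemma cnt_le (i s s' : Fin 4) (w : List Le) : cnt i s w ≤ cnt i s' w + 1 := by
  cases w with
  | nil => simp [cnt]
  | cons a w => simp only [cnt]; split_ifs <;> omega

def Cost (x : List Le) (c : ℕ) : Prop :=
  ∀ (i s s' : Fin 4) (r : List Le), (s' = i → s = i) → cnt i s (x ++ r) ≤ c + cnt i s' r

lemma Cost.nil : Cost [] 0 := fun i s s' r h => by simpa using cnt_mono i h r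

lemma Cost.append {x y : List Le} {c d : ℕ} (hx : Cost x c) (hy : Cost y d) :
    Cost (x ++ y) (c + d) := fun i s s' r h => by
  have h1 := hx i s s' (y ++ r) h
  have h2 := hy i s' s' r id
  rw [List.append_assoc]
  omega

lemma cnt_replicate (i : Fin 4) (a : Le) (n : ℕ) (r : List Le) :
    cnt i a.1 (List.replicate n a ++ r) = cnt i a.1 r := by
  induction n with
  | zero => simp
  | succ n ih => simp [List.replicate_succ, cnt, ih]

lemma Cost.replicate (a : Le) (n : ℕ) : Cost (List.replicate n a) 2 := fun i s s' r _ => by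
  have h1 := cnt_le i s a.1 (List.replicate n a ++ r)
  have h2 := cnt_le i a.1 s' r
  rw [cnt_replicate] at h1
  omega

lemma Cost.any (x : List Le) : Cost x (2 * x.length) := by
  induction x with
  | nil => exact Cost.nil
  | cons a x ih =>
    have := (Cost.replicate a 1).append ih
    simp only [List.replicate_one, List.singleton_append] at this
    rw [List.length_cons, mul_add, add_comm]
    exact this

lemma weave_cnt (w : List Le) (σ : ℕ → List Le) (cc : ℕ → ℕ) (h : ∀ τ, Cost (σ τ) (cc τ))
    (i s s' : Fin 4) (hs : s' = i → s = i) :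
    cnt i s (weave w σ) ≤ ∑ τ ∈ range (w.length + 1), cc τ + cnt i s' w := by
  induction w generalizing σ cc s s' with
  | nil => simpa [weave, cnt] using h 0 i s s' [] hs
  | cons a w ih =>
    have h1 := h 0 i s s' (a :: weave w fun n => σ (n + 1)) hs
    have h2 := ih (fun n => σ (n + 1)) (fun n => cc (n + 1)) (fun τ => h _) a.1 a.1 id
    simp only [weave, List.length_cons]
    rw [sum_range_succ' _ (w.length + 1)]
    simp only [cnt] at h1 ⊢
    omega

lemma cnt_filter (j i : Fin 4) (w : List Le) (s s' : Fin 4) (hs : s = i → s' = i) :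
    cnt i s' (w.filter fun a => a.1 ≠ j) ≤ if i = j then 0 else cnt i s w := by
  induction w generalizing s s' with
  | nil => simp [cnt]
  | cons a w ih =>
    by_cases ha : a.1 = j
    · rw [List.filter_cons_of_neg (by simpa using ha)]
      by_cases hij : i = j
      · simpa [hij] using ih s s' hs
      · have := ih a.1 s' (fun h => absurd (h.symm.trans ha) hij)
        simp only [hij, if_false, cnt] at this ⊢
        omega
    · rw [List.filter_cons_of_pos (by simpa using ha)]
      have := ih a.1 a.1 id
      by_cases hij : i = j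
      · subst hij
        simp only [if_true, cnt, ha, false_and, if_false] at this ⊢
        omega
      · simp only [hij, if_false, cnt] at this ⊢
        refine Nat.add_le_add ?_ this
        split_ifs with h1 h2
        · rfl
        · exact absurd ⟨h1.1, fun h3 => h1.2 (hs h3)⟩ h2
        · omega
        · rfl

lemma exists_weave (j : Fin 4) (w : List Le) : ∃ σ : ℕ → List Le, (∀ τ, ∀ a ∈ σ τ, a.1 = j) ∧
    weave (w.filter fun a => a.1 ≠ j) σ = w := by
  induction w with
  | nil => exact ⟨fun _ => [], by simp, rfl⟩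
  | cons a w ih =>
    obtain ⟨σ, h1, h2⟩ := ih
    by_cases ha : a.1 = j
    · rw [List.filter_cons_of_neg (by simpa using ha)]
      refine ⟨fun n => if n = 0 then a :: σ 0 else σ n, fun τ b hb => ?_, ?_⟩
      · by_cases hτ : τ = 0
        · simp only [hτ, if_true, List.mem_cons] at hb
          rcases hb with rfl | hb
          · exact ha
          · exact h1 0 b hb
        · simp only [hτ, if_false] at hb
          exact h1 τ b hb
      · generalize List.filter (fun a => decide (a.1 ≠ j)) w = v at h2
        cases v with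
        | nil => simpa [weave] using h2
        | cons b v => simpa [weave] using h2
    · rw [List.filter_cons_of_pos (by simpa using ha)]
      refine ⟨fun n => match n with | 0 => [] | n + 1 => σ n, fun τ b hb => ?_, ?_⟩
      · cases τ with
        | zero => simp at hb
        | succ n => exact h1 n b hb
      · simpa [weave] using h2

lemma val_j (j : Fin 4) (x : List Le) (h : ∀ a ∈ x, a.1 = j) :
    ∃ n : ℤ, val x = U j n ∧ |n| ≤ x.length := by
  induction x with
  | nil => exact ⟨0, by simp [U_zero], by simp⟩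
  | cons a x ih =>
    obtain ⟨n, h1, h2⟩ := ih fun b hb => h b (List.mem_cons_of_mem _ hb)
    refine ⟨sg a.2 + n, by rw [val_cons, h1, U_add, gen, h a List.mem_cons_self], ?_⟩
    have : |sg a.2| = 1 := by rcases sg_cases a.2 with h | h <;> simp [h]
    have := abs_add_le (sg a.2) n
    simp only [List.length_cons]
    push_cast
    omega

def pw (j : Fin 4) (n : ℤ) : List Le := List.replicate n.natAbs (j, decide (0 ≤ n))

lemma val_pw (j : Fin 4) (n : ℤ) : val (pw j n) = U j n := by
  simp only [pw, val, List.map_replicate, List.prod_replicate, gen]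
  by_cases h : 0 ≤ n
  · simp only [h, decide_true, sg, if_true, U_pow]
    congr 1; omega
  · simp only [h, decide_false, sg, Bool.false_eq_true, if_false]
    rw [U_neg, inv_pow, U_pow, ← U_neg]
    congr 1; omega

def iw (q : List Le) : List Le := (q.map fun a => (a.1, !a.2)).reverse

lemma val_iw (q : List Le) : val (iw q) = (val q)⁻¹ := by
  induction q with
  | nil => simp [iw]
  | cons a q ih =>
    have : iw (a :: q) = iw q ++ [(a.1, !a.2)] := by simp [iw]
    rw [this, val_append, ih, val_cons, val_cons, val_nil, mul_one, mul_inv_rev]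
    congr 1
    simp only [gen, ← U_neg]
    cases a.2 <;> simp [sg]

def Good (j : Fin 4) (w : List Le) (m : Fin 4 → ℤ) (l c : ℕ) : Prop :=
  ∃ (σ : ℕ → List Le) (cc : ℕ → ℕ), (∀ τ, InN j (val (σ τ)) ∧ Cost (σ τ) (cc τ)) ∧
    ∑ τ ∈ range (w.length + 1), lg j (val (w.take τ) * val (σ τ) * (val (w.take τ))⁻¹) = m ∧
    ∑ τ ∈ range (w.length + 1), (σ τ).length ≤ l ∧ ∑ τ ∈ range (w.length + 1), cc τ ≤ c

variable {j : Fin 4} {w : List Le}

lemma Good.mono {m : Fin 4 → ℤ} {l c l' c' : ℕ} (h : Good j w m l c) (hl : l ≤ l') (hc : c ≤ c') :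
    Good j w m l' c' := by
  obtain ⟨σ, cc, h1, h2, h3, h4⟩ := h
  exact ⟨σ, cc, h1, h2, h3.trans hl, h4.trans hc⟩

lemma Good.zero : Good j w 0 0 0 :=
  ⟨fun _ => [], fun _ => 0, fun _ => ⟨InN.one j, Cost.nil⟩, by simp [lg_one], by simp, by simp⟩

lemma Good.add {m m' : Fin 4 → ℤ} {l c l' c' : ℕ} (h : Good j w m l c) (h' : Good j w m' l' c') :
    Good j w (m + m') (l + l') (c + c') := by
  obtain ⟨σ, cc, h1, h2, h3, h4⟩ := h
  obtain ⟨σ', cc', h1', h2', h3', h4'⟩ := h'
  refine ⟨fun τ => σ τ ++ σ' τ, fun τ => cc τ + cc' τ,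
    fun τ => ⟨by rw [val_append]; exact (h1 τ).1.mul (h1' τ).1, (h1 τ).2.append (h1' τ).2⟩,
    ?_, ?_, ?_⟩
  · rw [← h2, ← h2', ← sum_add_distrib]
    refine sum_congr rfl fun τ _ => ?_
    rw [← lg_mul ((h1 τ).1.conj _) ((h1' τ).1.conj _), val_append]
    congr 1
    group
  · simp only [List.length_append, sum_add_distrib]; omega
  · simp only [sum_add_distrib]; omega

lemma Good.sum {ι : Type} (s : Finset ι) (m : ι → Fin 4 → ℤ) (l c : ι → ℕ)
    (h : ∀ i ∈ s, Good j w (m i) (l i) (c i)) :
    Good j w (∑ i ∈ s, m i) (∑ i ∈ s, l i) (∑ i ∈ s, c i) := by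
  classical
  induction s using Finset.induction_on with
  | empty => simpa using Good.zero
  | insert a s ha ih =>
    rw [sum_insert ha, sum_insert ha, sum_insert ha]
    exact (h a (mem_insert_self _ _)).add (ih fun i hi => h i (mem_insert_of_mem hi))

lemma Good.atom (τ : ℕ) (hτ : τ ≤ w.length) (q : List Le) (n : ℤ) :
    Good j w (n • phi j (val (w.take τ) * val q)) (n.natAbs + 2 * q.length)
      (2 + 4 * q.length) := by
  have hv : val (q ++ pw j n ++ iw q) = val q * U j n * (val q)⁻¹ := by
    rw [val_append, val_append, val_pw, val_iw]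
  have hm : τ ∈ range (w.length + 1) := mem_range.2 (by omega)
  refine ⟨fun t => if t = τ then q ++ pw j n ++ iw q else [],
    fun t => if t = τ then 2 + 4 * q.length else 0, fun t => ?_, ?_, ?_, ?_⟩
  · by_cases h : t = τ
    · simp only [h, if_true]
      refine ⟨hv ▸ (InN.U j n).conj _, ?_⟩
      have := ((Cost.any q).append (Cost.replicate (j, decide (0 ≤ n)) n.natAbs)).append
        (Cost.any (iw q))
      have e : 2 + 4 * q.length = 2 * q.length + 2 + 2 * (iw q).length := by simp [iw]; ring
      rw [e]
      exact this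
    · simp only [h, if_false]
      exact ⟨InN.one j, Cost.nil⟩
  · rw [sum_eq_single_of_mem τ hm]
    · simp only [if_true, hv]
      rw [← lg_conj]
      congr 1
      group
    · intro t _ h
      simp [h, lg_one]
  · rw [sum_eq_single_of_mem τ hm]
    · simp [pw, iw]; omega
    · intro t _ h
      simp [h]
  · rw [sum_eq_single_of_mem τ hm]
    · simp
    · intro t _ h
      simp [h]

end Pool.Agent.H571Z.Geo
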